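import Mathlib
import Pool.Agent.Lib.MP_01ebeb_al.Defs
import Pool.Agent.Lib.MP_01ebeb_al.CC
import Pool.Agent.Lib.MP_01ebeb_al.Degenerate

/-!
# The cluster algebra of the Markov quiver is not a Caldero-Chapoton algebra

Let `W` be a potential of the Markov quiver.  If the cubic part of `W` vanishes (up to cyclic
equivalence) then `W` is degenerate: the premutation at a vertex is reduced and has 2-cycles.
Otherwise the arrow `(0, p)` occurs in the cubic part for some `p`.  The module with dimension vector
`(1, 1, 0)` on which `(0, p)` acts as the identity has the Caldero-Chapoton function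
`x^g (x₀² + x₁² + x₂²) / x₀²` with `g₁ = -1` and `g₀, g₂ ≤ 1`.  The cluster algebra is graded with all
cluster variables in degree one, and it carries a compatible grading by `(ℤ/2)³`; the element above
lives in degree `≤ 0` and has nontrivial `(ℤ/2)³`-degree, or it lives in degree `1` and has
`(ℤ/2)³`-degree `(1, 1, 1)`.  Neither is possible for a nonzero element of the cluster algebra.
-/

namespace Pool.Agent.Results.MP_01ebeb_al.MarkovDisproof

open Pool.Agent.CCAlg

/-- The Markov quiver is 2-acyclic, and for every non-degenerate potential `W` of the Markov quiver
the Caldero-Chapoton algebra `A_{Q,W}` is different from the cluster algebra `A_Q`. -/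
theorem result : markov.TwoAcyclic ∧ ∀ W : Potential markov,
    QP.Nondegenerate ⟨markov, W⟩ → ccAlgebra markov W ≠ clusterAlgebra markov := by
  refine ⟨markov_twoAcyclic, fun W hW => ?_⟩
  by_contra h
  refine not_nondegenerate W (fun k j i => ?_) hW
  by_contra hT
  exact ccAlgebra_ne i W hT h

end Pool.Agent.Results.MP_01ebeb_al.MarkovDisproof
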